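import Mathlib

/-!
# Weak versus strong `W^{1,p}` closure of diffeomorphisms, `p = n - 1`

For every `n ≥ 3` the spherical shell `A = {1 < |x| < 2}` of `ℝⁿ` satisfies: the weak `W^{1,n-1}`
closure of the diffeomorphisms of `A` onto `A` is strictly larger than the strong one.
The map is `f x = |x| e`; it is the weak limit of `x ↦ |x| Φ_t (x / |x|)`, where `Φ_t` is the
restriction to the unit sphere of the inversion centred at `t e` which preserves the sphere.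
-/

set_option autoImplicit false

open MeasureTheory Set Filter Topology Metric
open scoped ENNReal NNReal InnerProductSpace

namespace Pool.Agent.Results.MP_fc472d_an.ShellWeakNotStrong

noncomputable section

/-- The Euclidean space `ℝⁿ`. -/
abbrev Eu (n : ℕ) : Type := EuclideanSpace ℝ (Fin n)

/-- `G` is the weak (distributional) differential of `f` on the open set `Ω`:
integration by parts against all scalar test functions, in all directions `v`. -/
def IsWeakDiff {n : ℕ} (Ω : Set (Eu n)) (f : Eu n → Eu n) (G : Eu n → (Eu n →L[ℝ] Eu n)) : Prop :=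
  ∀ φ : Eu n → ℝ, ContDiff ℝ ((⊤ : ℕ∞) : WithTop ℕ∞) φ → HasCompactSupport φ → tsupport φ ⊆ Ω →
    ∀ v : Eu n, ∫ x in Ω, (fderiv ℝ φ x v) • f x = - ∫ x in Ω, φ x • (G x v)

/-- `f ∈ W^{1,p}(Ω, ℝⁿ)`, with weak differential `G`. -/
def IsSobolev {n : ℕ} (p : ℝ≥0∞) (Ω : Set (Eu n)) (f : Eu n → Eu n)
    (G : Eu n → (Eu n →L[ℝ] Eu n)) : Prop :=
  MemLp f p (volume.restrict Ω) ∧ MemLp G p (volume.restrict Ω) ∧ IsWeakDiff Ω f G

/-- `u k ⇀ v` weakly in `L^p(Ω, ℝⁿ)`: convergence of the pairings with every element of the dual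
space `L^q(Ω, ℝⁿ)`, `1/p + 1/q = 1`. -/
def WeakLp {n : ℕ} (p : ℝ≥0∞) (Ω : Set (Eu n)) (u : ℕ → Eu n → Eu n) (v : Eu n → Eu n) : Prop :=
  ∀ q : ℝ≥0∞, p⁻¹ + q⁻¹ = 1 → ∀ h : Eu n → Eu n, MemLp h q (volume.restrict Ω) →
    Tendsto (fun k => ∫ x in Ω, ⟪h x, u k x⟫_ℝ) atTop (𝓝 (∫ x in Ω, ⟪h x, v x⟫_ℝ))

/-- `F k ⇀ f` weakly in `W^{1,p}(Ω, ℝⁿ)`: the maps and all their directional weak derivatives
converge weakly in `L^p`. -/
def WeakConv {n : ℕ} (p : ℝ≥0∞) (Ω : Set (Eu n)) (F : ℕ → Eu n → Eu n)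
    (DF : ℕ → Eu n → (Eu n →L[ℝ] Eu n)) (f : Eu n → Eu n) (Df : Eu n → (Eu n →L[ℝ] Eu n)) : Prop :=
  WeakLp p Ω F f ∧ ∀ v : Eu n, WeakLp p Ω (fun k x => DF k x v) (fun x => Df x v)

/-- `F k → f` in the norm of `W^{1,p}(Ω, ℝⁿ)`. -/
def StrongConv {n : ℕ} (p : ℝ≥0∞) (Ω : Set (Eu n)) (F : ℕ → Eu n → Eu n)
    (DF : ℕ → Eu n → (Eu n →L[ℝ] Eu n)) (f : Eu n → Eu n) (Df : Eu n → (Eu n →L[ℝ] Eu n)) : Prop :=
  Tendsto (fun k => eLpNorm (fun x => F k x - f x) p (volume.restrict Ω) +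
    eLpNorm (fun x => DF k x - Df x) p (volume.restrict Ω)) atTop (𝓝 0)

/-- `f` is a diffeomorphism of class `C^r` of `Ω` onto `Ω'`. -/
def IsDiffeo {n : ℕ} (r : WithTop ℕ∞) (Ω Ω' : Set (Eu n)) (f : Eu n → Eu n) : Prop :=
  BijOn f Ω Ω' ∧ ContDiffOn ℝ r f Ω ∧ ∃ g : Eu n → Eu n, InvOn g f Ω Ω' ∧ ContDiffOn ℝ r g Ω'

/-- The weak `W^{1,p}` closure of the `C^r` diffeomorphisms of `Ω` onto `Ω'`: all
`f ∈ W^{1,p}(Ω, ℝⁿ)` with values in `Ω'` which are weak limits of such diffeomorphisms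
`F k ∈ W^{1,p}`. -/
def weakClosure {n : ℕ} (r : WithTop ℕ∞) (p : ℝ≥0∞) (Ω Ω' : Set (Eu n)) : Set (Eu n → Eu n) :=
  {f | (∀ᵐ x ∂(volume.restrict Ω), f x ∈ Ω') ∧
    ∃ (Df : Eu n → (Eu n →L[ℝ] Eu n)) (F : ℕ → Eu n → Eu n) (DF : ℕ → Eu n → (Eu n →L[ℝ] Eu n)),
      IsSobolev p Ω f Df ∧ (∀ k, IsDiffeo r Ω Ω' (F k) ∧ IsSobolev p Ω (F k) (DF k)) ∧
      WeakConv p Ω F DF f Df}

/-- The strong `W^{1,p}` closure of the `C^r` diffeomorphisms of `Ω` onto `Ω'`. -/
def strongClosure {n : ℕ} (r : WithTop ℕ∞) (p : ℝ≥0∞) (Ω Ω' : Set (Eu n)) : Set (Eu n → Eu n) :=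
  {f | (∀ᵐ x ∂(volume.restrict Ω), f x ∈ Ω') ∧
    ∃ (Df : Eu n → (Eu n →L[ℝ] Eu n)) (F : ℕ → Eu n → Eu n) (DF : ℕ → Eu n → (Eu n →L[ℝ] Eu n)),
      IsSobolev p Ω f Df ∧ (∀ k, IsDiffeo r Ω Ω' (F k) ∧ IsSobolev p Ω (F k) (DF k)) ∧
      StrongConv p Ω F DF f Df}

/-- The spherical shell `{1 < |x| < 2}`. -/
def shell (n : ℕ) : Set (Eu n) := {x | 1 < ‖x‖ ∧ ‖x‖ < 2}

lemma shell_isOpen (n : ℕ) : IsOpen (shell n) :=
  (isOpen_lt continuous_const continuous_norm).inter (isOpen_lt continuous_norm continuous_const)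

variable {n : ℕ}

section weakdiff

/-- a classical `C¹` map is weakly differentiable -/
lemma isWeakDiff_of_contDiffOn {Ω : Set (Eu n)} (hΩ : IsOpen Ω) {f : Eu n → Eu n}
    (hf : ContDiffOn ℝ 1 f Ω) : IsWeakDiff Ω f (fderiv ℝ f) := by
  intro φ hφ hc hs v
  have hfd : ∀ x ∈ Ω, DifferentiableAt ℝ f x := fun x hx =>
    (hf.differentiableOn (by norm_num)).differentiableAt (hΩ.mem_nhds hx)
  have hφd : Differentiable ℝ φ := hφ.differentiable (by simp)
  have hzero : ∀ x, x ∉ Ω → φ x = 0 := fun x hx => image_eq_zero_of_notMem_tsupport fun h => hx (hs h)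
  have hdzero : ∀ x, x ∉ Ω → fderiv ℝ φ x = 0 := by
    intro x hx
    have : x ∉ tsupport (fderiv ℝ φ) := fun h => hx (hs (tsupport_fderiv_subset ℝ h))
    exact image_eq_zero_of_notMem_tsupport this
  have e1 : ∫ x in Ω, (fderiv ℝ φ x v) • f x = ∫ x, (fderiv ℝ φ x v) • f x := by
    apply setIntegral_eq_integral_of_forall_compl_eq_zero
    intro x hx; simp [hdzero x hx]
  have e2 : ∫ x in Ω, φ x • (fderiv ℝ f x v) = ∫ x, φ x • (fderiv ℝ f x v) := by
    apply setIntegral_eq_integral_of_forall_compl_eq_zero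
    intro x hx; simp [hzero x hx]
  have hfc : ContinuousOn f Ω := hf.continuousOn
  have hf'c : ContinuousOn (fun x => fderiv ℝ f x) Ω := hf.continuousOn_fderiv_of_isOpen hΩ le_rfl
  -- integrability of compactly supported products
  have hint : ∀ (ψ : Eu n → ℝ) (g : Eu n → Eu n), Continuous ψ → HasCompactSupport ψ → tsupport ψ ⊆ Ω →
      ContinuousOn g Ω → Integrable (fun x => ψ x • g x) := by
    intro ψ g hψ hψc hψs hg
    have hcont : Continuous (fun x => ψ x • g x) := by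
      rw [continuous_iff_continuousAt]
      intro x
      by_cases hx : x ∈ tsupport ψ
      · exact hψ.continuousAt.smul (hg.continuousAt (hΩ.mem_nhds (hψs hx)))
      · have : ψ =ᶠ[𝓝 x] 0 := notMem_tsupport_iff_eventuallyEq.mp hx
        have h2 : (fun x => ψ x • g x) =ᶠ[𝓝 x] fun _ => 0 := by
          filter_upwards [this] with y hy
          simp [hy]
        exact continuousAt_const.congr h2.symm
    exact hcont.integrable_of_hasCompactSupport (hψc.smul_right)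
  rw [e1, e2]
  have hφ'c : Continuous (fun x => fderiv ℝ φ x v) :=
    (hφ.continuous_fderiv (by simp)).clm_apply continuous_const
  have hsupp : HasCompactSupport (fun x => fderiv ℝ φ x v) := hc.fderiv_apply (𝕜 := ℝ) v
  have hts : tsupport (fun x => fderiv ℝ φ x v) ⊆ Ω := (tsupport_fderiv_apply_subset ℝ v).trans hs
  have := integral_smul_fderiv_eq_neg_fderiv_smul_of_integrable (μ := (volume : Measure (Eu n)))
    (f := φ) (g := f) (v := v)
    (hint _ _ hφ'c hsupp hts hfc)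
    (hint _ _ hφ.continuous hc hs (hf'c.clm_apply continuousOn_const))
    (hint _ _ hφ.continuous hc hs hfc)
    (fun x _ => hφd x) (fun x hx => hfd x (hs hx))
  rw [this, neg_neg]

lemma integrable_smul_of_locallyIntegrableOn {Ω : Set (Eu n)} {G : Type*} [NormedAddCommGroup G]
    [NormedSpace ℝ G] {g : Eu n → G} (hg : LocallyIntegrableOn g Ω) {φ : Eu n → ℝ}
    (hφ : Continuous φ) (hc : HasCompactSupport φ) (hs : tsupport φ ⊆ Ω) :
    Integrable (fun x => φ x • g x) := by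
  have h1 : IntegrableOn g (tsupport φ) := hg.integrableOn_compact_subset hs hc
  have h2 : IntegrableOn (fun x => φ x • g x) (tsupport φ) :=
    h1.continuousOn_smul hφ.continuousOn hc
  rwa [integrableOn_iff_integrable_of_support_subset] at h2
  intro x hx
  by_contra h
  exact hx (by simp [image_eq_zero_of_notMem_tsupport h])

/-- uniqueness of the weak differential of a `C¹` map -/
lemma ae_eq_fderiv {Ω : Set (Eu n)} (hΩ : IsOpen Ω) {f : Eu n → Eu n}
    (hf : ContDiffOn ℝ 1 f Ω) {p : ℝ≥0∞} (hp : 1 ≤ p) {G : Eu n → (Eu n →L[ℝ] Eu n)}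
    (hG : IsSobolev p Ω f G) : ∀ᵐ x ∂(volume.restrict Ω), G x = fderiv ℝ f x := by
  have hf'c : ContinuousOn (fun x => fderiv ℝ f x) Ω := hf.continuousOn_fderiv_of_isOpen hΩ le_rfl
  have hGl : LocallyIntegrableOn G Ω :=
    locallyIntegrableOn_of_locallyIntegrable_restrict (hG.2.1.locallyIntegrable hp)
  have hfl : LocallyIntegrableOn (fun x => fderiv ℝ f x) Ω :=
    hf'c.locallyIntegrableOn hΩ.measurableSet
  have hcl := isWeakDiff_of_contDiffOn hΩ hf
  have key : ∀ v : Eu n, ∀ᵐ x ∂(volume : Measure (Eu n)), x ∈ Ω → G x v - fderiv ℝ f x v = 0 := by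
    intro v
    have hGv : LocallyIntegrableOn (fun x => G x v) Ω := by
      intro x hx
      obtain ⟨t, ht, hti⟩ := hGl x hx
      exact ⟨t, ht, hti.apply_continuousLinearMap v⟩
    have hfv : LocallyIntegrableOn (fun x => fderiv ℝ f x v) Ω := by
      intro x hx
      obtain ⟨t, ht, hti⟩ := hfl x hx
      exact ⟨t, ht, hti.apply_continuousLinearMap v⟩
    apply hΩ.ae_eq_zero_of_integral_contDiff_smul_eq_zero (hGv.sub hfv)
    intro φ hφ hc hs
    have hzero : ∀ x, x ∉ Ω → φ x = 0 := fun x hx =>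
      image_eq_zero_of_notMem_tsupport fun h => hx (hs h)
    have e1 := hG.2.2 φ hφ hc hs v
    have e2 := hcl φ hφ hc hs v
    rw [e1] at e2
    have e3 : ∫ x in Ω, φ x • (G x v) = ∫ x in Ω, φ x • (fderiv ℝ f x v) := neg_inj.mp e2
    have hi : ∀ (g : Eu n → Eu n), LocallyIntegrableOn g Ω →
        Integrable (fun x => φ x • g x) := by
      intro g hg
      exact integrable_smul_of_locallyIntegrableOn hg hφ.continuous hc hs
    have e4 : ∀ (g : Eu n → Eu n), ∫ x in Ω, φ x • g x = ∫ x, φ x • g x := by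
      intro g
      apply setIntegral_eq_integral_of_forall_compl_eq_zero
      intro x hx; simp [hzero x hx]
    rw [e4 (fun x => G x v), e4 (fun x => fderiv ℝ f x v)] at e3
    simp only [Pi.sub_apply, smul_sub]
    rw [integral_sub (hi _ hGv) (hi _ hfv), e3, sub_self]
  rw [ae_restrict_iff' hΩ.measurableSet]
  have hall : ∀ᵐ x ∂(volume : Measure (Eu n)), ∀ i : Fin n,
      x ∈ Ω → G x (EuclideanSpace.single i 1) - fderiv ℝ f x (EuclideanSpace.single i 1) = 0 :=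
    ae_all_iff.mpr fun i => key _
  filter_upwards [hall] with x hx hxΩ
  apply ContinuousLinearMap.coe_injective
  apply (EuclideanSpace.basisFun (Fin n) ℝ).toBasis.ext
  intro i
  have := hx i hxΩ
  simpa [sub_eq_zero] using this

end weakdiff

section lin
/-- matrix of `M` in two orthonormal bases -/
lemma abs_det_eq {ι : Type*} [Fintype ι] [DecidableEq ι] {F : Type*} [NormedAddCommGroup F]
    [InnerProductSpace ℝ F] (b b' : OrthonormalBasis ι ℝ F)
    (M : F →ₗ[ℝ] F) :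
    |LinearMap.det M| = |(Matrix.of fun i j => ⟪b' i, M (b j)⟫_ℝ).det| := by
  have h1 : LinearMap.det M = (LinearMap.toMatrix b.toBasis b.toBasis M).det :=
    (LinearMap.det_toMatrix b.toBasis M).symm
  have h2 : (Matrix.of fun i j => ⟪b' i, M (b j)⟫_ℝ) =
      LinearMap.toMatrix b.toBasis b'.toBasis M := by
    ext i j
    simp [LinearMap.toMatrix_apply, OrthonormalBasis.repr_apply_apply]
  have h3 : LinearMap.toMatrix b.toBasis b.toBasis M =
      b.toBasis.toMatrix b'.toBasis * LinearMap.toMatrix b.toBasis b'.toBasis M := by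
    rw [basis_toMatrix_mul_linearMap_toMatrix]
  rw [h1, h2, h3, Matrix.det_mul, abs_mul]
  have h4 : |(b.toBasis.toMatrix b'.toBasis).det| = 1 := by
    have := b.det_to_matrix_orthonormalBasis_real b'
    have h5 : b.toBasis.det b' = (b.toBasis.toMatrix b').det := rfl
    rw [h5] at this
    have h6 : (b.toBasis.toMatrix b'.toBasis) = (b.toBasis.toMatrix b') := by
      simp
    rw [h6]
    rcases this with h | h <;> rw [h] <;> simp
  rw [h4, one_mul]

/-- An orthonormal basis with prescribed first vector. -/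
lemma exists_onb {m : ℕ} (x : Eu (m + 1)) (hx : ‖x‖ = 1) :
    ∃ b : OrthonormalBasis (Fin (m + 1)) ℝ (Eu (m + 1)), b 0 = x := by
  have h : Orthonormal ℝ (({0} : Set (Fin (m+1))).domRestrict (fun _ => x)) := by
    constructor
    · intro i; simpa using hx
    · intro i j hij
      exact absurd (Subsingleton.elim i j) hij
  obtain ⟨b, hb⟩ := h.exists_orthonormalBasis_extension_of_card_eq (by simp)
  exact ⟨b, hb 0 rfl⟩

lemma det_bound {m : ℕ} (M : Eu (m + 1) →ₗ[ℝ] Eu (m + 1)) (x u : Eu (m + 1)) (K : ℝ)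
    (hx : ‖x‖ = 1) (hu : ‖u‖ = 1)
    (h1 : ∀ v, ⟪u, M v⟫_ℝ = ⟪x, v⟫_ℝ)
    (h2 : ∀ v, ⟪x, v⟫_ℝ = 0 → ‖M v‖ ≤ K * ‖v‖) :
    |LinearMap.det M| ≤ (m.factorial : ℝ) * K ^ m := by
  obtain ⟨b, hb⟩ := exists_onb x hx
  obtain ⟨b', hb'⟩ := exists_onb u hu
  rw [abs_det_eq b b' M]
  set A := (Matrix.of fun i j => ⟪b' i, M (b j)⟫_ℝ) with hA
  have hrow : ∀ j, A 0 j = if j = 0 then 1 else 0 := by
    intro j
    simp only [hA, Matrix.of_apply, hb', h1, ← hb]
    by_cases hj : j = 0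
    · subst hj; simp
    · rw [if_neg hj]
      exact b.orthonormal.2 (Ne.symm hj)
  have hdet : A.det = (A.submatrix Fin.succ Fin.succ).det := by
    rw [Matrix.det_succ_row_zero]
    rw [Finset.sum_eq_single 0]
    · simp [hrow]
    · intro j _ hj
      simp [hrow, hj]
    · simp
  rw [hdet]
  have := Matrix.det_le (A := A.submatrix Fin.succ Fin.succ) (abv := AbsoluteValue.abs) (x := K) (by
    intro i j
    simp only [AbsoluteValue.abs_apply, Matrix.submatrix_apply, hA, Matrix.of_apply]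
    calc |⟪b' i.succ, M (b j.succ)⟫_ℝ| ≤ ‖b' i.succ‖ * ‖M (b j.succ)‖ := abs_real_inner_le_norm _ _
      _ = ‖M (b j.succ)‖ := by rw [b'.orthonormal.1]; ring
      _ ≤ K * ‖b j.succ‖ := by
          apply h2
          rw [← hb]
          exact b.orthonormal.2 (Ne.symm (Fin.succ_ne_zero j))
      _ = K := by rw [b.orthonormal.1]; ring)
  simpa [nsmul_eq_mul] using this

lemma det_scale {m : ℕ} (D : Eu (m + 1) →ₗ[ℝ] Eu (m + 1)) (x : Eu (m + 1)) (κ : ℝ)
    (hx : ‖x‖ = 1) (h1 : ∀ v, D v = ⟪x, v⟫_ℝ • x + κ • (v - ⟪x, v⟫_ℝ • x)) :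
    LinearMap.det D = κ ^ m := by
  obtain ⟨b, hb⟩ := exists_onb x hx
  rw [← LinearMap.det_toMatrix b.toBasis D]
  have : LinearMap.toMatrix b.toBasis b.toBasis D =
      Matrix.diagonal (fun i : Fin (m+1) => if i = 0 then 1 else κ) := by
    ext i j
    rw [LinearMap.toMatrix_apply]
    simp only [OrthonormalBasis.coe_toBasis, OrthonormalBasis.coe_toBasis_repr_apply,
      OrthonormalBasis.repr_apply_apply, h1, ← hb, inner_add_right, inner_smul_right,
      inner_sub_right, Matrix.diagonal_apply]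
    have e : ∀ i j, ⟪b i, b j⟫_ℝ = if i = j then 1 else 0 := orthonormal_iff_ite.mp b.orthonormal
    simp only [e]
    by_cases hij : i = j
    · subst hij
      by_cases hi : i = 0
      · subst hi; simp
      · simp [hi, Ne.symm hi]
    · by_cases hj : j = 0
      · subst hj; simp [hij]
      · by_cases hi : i = 0
        · subst hi; simp [hij]
        · simp [hij, hi, Ne.symm hj]
  rw [this, Matrix.det_diagonal, Fin.prod_univ_succ]
  simp [Fin.succ_ne_zero]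


end lin

section basic
variable {F : Type*} [NormedAddCommGroup F] [InnerProductSpace ℝ F]

lemma hasFDerivAt_nrm {z : F} (hz : z ≠ 0) :
    HasFDerivAt (fun z : F => ‖z‖) (‖z‖⁻¹ • innerSL ℝ z) z := by
  have h1 := (hasStrictFDerivAt_norm_sq z).hasFDerivAt
  have h2 := h1.sqrt (by positivity)
  have h3 : (fun y : F => √(‖y‖ ^ 2)) = fun y => ‖y‖ := by
    ext y; exact Real.sqrt_sq (norm_nonneg y)
  rw [h3] at h2
  convert! h2 using 1
  ext v
  have hz' : ‖z‖ ≠ 0 := norm_ne_zero_iff.mpr hz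
  simp [Real.sqrt_sq (norm_nonneg z)]
  field_simp

lemma hasFDerivAt_unit {z : F} (hz : z ≠ 0) :
    HasFDerivAt (fun z : F => ‖z‖⁻¹ • z)
      (‖z‖⁻¹ • (ContinuousLinearMap.id ℝ F -
        (‖z‖⁻¹ • innerSL ℝ z).smulRight (‖z‖⁻¹ • z))) z := by
  have hz' : ‖z‖ ≠ 0 := norm_ne_zero_iff.mpr hz
  have h1 := (hasDerivAt_inv hz').comp_hasFDerivAt z (hasFDerivAt_nrm hz)
  have h2 := h1.smul (hasFDerivAt_id z)
  convert! h2 using 1
  ext v
  simp [smul_sub, smul_smul]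
  rw [sub_eq_add_neg, ← neg_smul]
  congr 1
  rw [← neg_smul]
  congr 1
  field_simp

end basic

section infl
variable {F : Type*} [NormedAddCommGroup F] [InnerProductSpace ℝ F]

/-- radius of the inversion preserving the unit sphere, with centre at distance `t` -/
def rad (t : ℝ) : ℝ := √(t ^ 2 - 1)

lemma unit_ne {t : ℝ} (ht : 1 < t) {e y : F} (he : ‖e‖ = 1) (hy : ‖y‖ = 1) : y ≠ t • e := by
  intro h
  have := congrArg norm h
  rw [norm_smul, he, hy, Real.norm_eq_abs, abs_of_pos (by linarith)] at this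
  linarith

/-- the dilation factor -/
def kap (t : ℝ) (e y : F) : ℝ := (rad t / dist y (t • e)) ^ 2

lemma inversion_eq_reflection {t : ℝ} (ht : 1 < t) {e y : F} (he : ‖e‖ = 1) (hy : ‖y‖ = 1) :
    EuclideanGeometry.inversion (t • e) (rad t) y = (ℝ ∙ (y - t • e))ᗮ.reflection y := by
  rw [Submodule.reflection_orthogonal_apply, Submodule.reflection_singleton_apply]
  have hw : ‖y - t • e‖ ≠ 0 := norm_ne_zero_iff.mpr (sub_ne_zero.mpr (unit_ne ht he hy))
  have hR : rad t ^ 2 = t ^ 2 - 1 := Real.sq_sqrt (by nlinarith)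
  have hn : ‖y - t • e‖ ^ 2 = 1 - 2 * t * ⟪y, e⟫_ℝ + t ^ 2 := by
    rw [norm_sub_sq_real, hy, norm_smul, he, inner_smul_right, Real.norm_eq_abs, mul_one, sq_abs]
    ring
  have hi : ⟪y - t • e, y⟫_ℝ = 1 - t * ⟪y, e⟫_ℝ := by
    rw [inner_sub_left, real_inner_self_eq_norm_sq, hy, inner_smul_left, real_inner_comm]
    simp
  simp only [EuclideanGeometry.inversion, dist_eq_norm, vsub_eq_sub, vadd_eq_add, div_pow, hR]
  have e1 : ((RCLike.ofReal ‖y - t • e‖ : ℝ)) ^ 2 = ‖y - t • e‖ ^ 2 := by simp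
  rw [e1, hi]
  have key : (t ^ 2 - 1) / ‖y - t • e‖ ^ 2 = 1 - 2 * ((1 - t * ⟪y, e⟫_ℝ) / ‖y - t • e‖ ^ 2) := by
    field_simp
    rw [hn]; ring
  rw [key]
  module


/-- conformal dilation of the unit sphere, extended homogeneously -/
def fmap (t : ℝ) (e x : F) : F :=
  ‖x‖ • EuclideanGeometry.inversion (t • e) (rad t) (‖x‖⁻¹ • x)

lemma norm_unitvec {x : F} (hx : x ≠ 0) : ‖(‖x‖⁻¹ • x)‖ = 1 := by
  have : ‖x‖ ≠ 0 := norm_ne_zero_iff.mpr hx
  rw [norm_smul, norm_inv, norm_norm]; field_simp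

lemma norm_fmap {t : ℝ} (ht : 1 < t) {e x : F} (he : ‖e‖ = 1) (hx : x ≠ 0) :
    ‖fmap t e x‖ = ‖x‖ := by
  rw [fmap, norm_smul, inversion_eq_reflection ht he (norm_unitvec hx),
    LinearIsometryEquiv.norm_map, norm_unitvec hx, norm_norm, mul_one]

lemma rad_ne {t : ℝ} (ht : 1 < t) : rad t ≠ 0 := by
  have : 0 < t ^ 2 - 1 := by nlinarith
  exact (Real.sqrt_pos.mpr this).ne'

lemma fmap_fmap {t : ℝ} (ht : 1 < t) {e x : F} (he : ‖e‖ = 1) (hx : x ≠ 0) :
    fmap t e (fmap t e x) = x := by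
  have h1 := norm_fmap ht he hx
  have hx' : ‖x‖ ≠ 0 := norm_ne_zero_iff.mpr hx
  have h2 : ‖fmap t e x‖⁻¹ • fmap t e x =
      EuclideanGeometry.inversion (t • e) (rad t) (‖x‖⁻¹ • x) := by
    rw [h1, fmap, smul_smul, inv_mul_cancel₀ hx', one_smul]
  rw [fmap, h2, EuclideanGeometry.inversion_inversion _ (rad_ne ht), h1, smul_smul,
    mul_inv_cancel₀ hx', one_smul]

/-- the derivative of `fmap` -/
def fder (t : ℝ) (e x : F) : F →L[ℝ] F :=
  ((ℝ ∙ ((‖x‖⁻¹ • x) - t • e))ᗮ.reflection : F →L[ℝ] F) ∘L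
    ((‖x‖⁻¹ • innerSL ℝ x).smulRight (‖x‖⁻¹ • x) +
      kap t e (‖x‖⁻¹ • x) • (ContinuousLinearMap.id ℝ F -
        (‖x‖⁻¹ • innerSL ℝ x).smulRight (‖x‖⁻¹ • x)))

lemma hasFDerivAt_fmap {t : ℝ} (ht : 1 < t) {e x : F} (he : ‖e‖ = 1) (hx : x ≠ 0) :
    HasFDerivAt (fmap t e) (fder t e x) x := by
  have hx' : ‖x‖ ≠ 0 := norm_ne_zero_iff.mpr hx
  have hy := norm_unitvec hx
  have h0 := EuclideanGeometry.hasFDerivAt_inversion (R := rad t) (unit_ne ht he hy)
  have h1 := HasFDerivAt.comp (f := fun z : F => ‖z‖⁻¹ • z) x h0 (hasFDerivAt_unit hx)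
  have h2 := (hasFDerivAt_nrm hx).smul h1
  convert! h2 using 1
  ext v
  simp only [fder, kap, Function.comp, ContinuousLinearMap.comp_apply, add_apply,
    smul_apply, sub_apply, ContinuousLinearMap.smulRight_apply,
    ContinuousLinearMap.id_apply]
  rw [inversion_eq_reflection ht he hy]
  simp only [LinearIsometryEquiv.coe_coe, ContinuousLinearEquiv.coe_coe, map_add, map_smul,
    smul_smul]
  rw [add_comm]
  congr 2
  field_simp

lemma norm_fder_le {t : ℝ} {e x : F} (hx : x ≠ 0) :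
    ‖fder t e x‖ ≤ 1 + kap t e (‖x‖⁻¹ • x) := by
  have hy := norm_unitvec hx
  have hk : 0 ≤ kap t e (‖x‖⁻¹ • x) := by unfold kap; positivity
  refine ContinuousLinearMap.opNorm_le_bound _ (by linarith) fun v => ?_
  set y := ‖x‖⁻¹ • x with hyd
  have hin : (‖x‖⁻¹ • innerSL ℝ x) v = ⟪y, v⟫_ℝ := by
    simp [hyd, inner_smul_left]
  simp only [fder, ContinuousLinearMap.comp_apply, add_apply,
    smul_apply, sub_apply, ContinuousLinearMap.smulRight_apply,
    ContinuousLinearMap.id_apply]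
  simp only [LinearIsometryEquiv.coe_coe, ContinuousLinearEquiv.coe_coe]
  rw [LinearIsometryEquiv.norm_map]
  rw [← hyd]
  have hin' : ‖x‖⁻¹ • (innerSL ℝ x) v = ⟪y, v⟫_ℝ := by simpa using hin
  rw [hin']
  have h1 : ‖⟪y, v⟫_ℝ • y‖ ≤ ‖v‖ := by
    rw [norm_smul, hy, mul_one, Real.norm_eq_abs]
    calc |⟪y, v⟫_ℝ| ≤ ‖y‖ * ‖v‖ := abs_real_inner_le_norm _ _
      _ = ‖v‖ := by rw [hy, one_mul]
  have h2 : ‖v - ⟪y, v⟫_ℝ • y‖ ≤ ‖v‖ := by
    apply le_of_sq_le_sq _ (norm_nonneg _)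
    rw [norm_sub_sq_real, norm_smul, hy, inner_smul_right, real_inner_comm, Real.norm_eq_abs,
      mul_one, sq_abs]
    nlinarith [sq_nonneg ⟪y, v⟫_ℝ]
  calc _ ≤ ‖⟪y, v⟫_ℝ • y‖ + ‖kap t e y • (v - ⟪y, v⟫_ℝ • y)‖ := norm_add_le _ _
    _ ≤ ‖v‖ + kap t e y * ‖v‖ := by
        rw [norm_smul (kap t e y), Real.norm_eq_abs (kap t e y), abs_of_nonneg hk]
        gcongr
    _ = (1 + kap t e y) * ‖v‖ := by ring

lemma contDiffAt_fmap {t : ℝ} (ht : 1 < t) {e x : F} (he : ‖e‖ = 1) (hx : x ≠ 0) :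
    ContDiffAt ℝ ((⊤ : ℕ∞) : WithTop ℕ∞) (fmap t e) x := by
  have hN : ContDiffAt ℝ ((⊤ : ℕ∞) : WithTop ℕ∞) (fun x : F => ‖x‖) x := contDiffAt_norm ℝ hx
  have hx' : ‖x‖ ≠ 0 := norm_ne_zero_iff.mpr hx
  refine hN.smul ?_
  exact contDiffAt_const.inversion contDiffAt_const ((hN.inv hx').smul contDiffAt_id)
    (unit_ne ht he (norm_unitvec hx))

end infl

section energy

lemma abs_det_fder {m : ℕ} {t : ℝ} {e x : Eu (m + 1)} (hx : x ≠ 0) :
    |(fder t e x).det| = kap t e (‖x‖⁻¹ • x) ^ m := by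
  set y := ‖x‖⁻¹ • x with hyd
  have hy : ‖y‖ = 1 := norm_unitvec hx
  set D : Eu (m+1) →L[ℝ] Eu (m+1) := ((‖x‖⁻¹ • innerSL ℝ x).smulRight (‖x‖⁻¹ • x) +
      kap t e (‖x‖⁻¹ • x) • (ContinuousLinearMap.id ℝ (Eu (m+1)) -
        (‖x‖⁻¹ • innerSL ℝ x).smulRight (‖x‖⁻¹ • x))) with hD
  have h1 : fder t e x = ((ℝ ∙ ((‖x‖⁻¹ • x) - t • e))ᗮ.reflection : Eu (m+1) →L[ℝ] Eu (m+1)) ∘L D := rfl
  have h2 : (fder t e x).det =
    LinearMap.det (((ℝ ∙ ((‖x‖⁻¹ • x) - t • e))ᗮ.reflection : Eu (m+1) →L[ℝ] Eu (m+1)) : Eu (m+1) →ₗ[ℝ] Eu (m+1)) *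
     LinearMap.det (D : Eu (m+1) →ₗ[ℝ] Eu (m+1)) := by
    rw [h1, ContinuousLinearMap.det]
    exact LinearMap.det_comp _ _
  rw [h2, abs_mul]
  have h3 : |LinearMap.det (((ℝ ∙ ((‖x‖⁻¹ • x) - t • e))ᗮ.reflection : Eu (m+1) →L[ℝ] Eu (m+1)) : Eu (m+1) →ₗ[ℝ] Eu (m+1))| = 1 := by
    have h := Submodule.det_reflection (K := (ℝ ∙ ((‖x‖⁻¹ • x) - t • e))ᗮ)
    have h' : LinearMap.det (((ℝ ∙ ((‖x‖⁻¹ • x) - t • e))ᗮ.reflection : Eu (m+1) →L[ℝ] Eu (m+1)) : Eu (m+1) →ₗ[ℝ] Eu (m+1))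
      = (-1 : ℝ) ^ Module.finrank ℝ (((ℝ ∙ ((‖x‖⁻¹ • x) - t • e))ᗮᗮ : Submodule ℝ (Eu (m+1)))) := h
    rw [h', abs_pow]; simp
  have h4 : LinearMap.det (D : Eu (m+1) →ₗ[ℝ] Eu (m+1)) = kap t e y ^ m := by
    apply det_scale _ y _ hy
    intro v
    have hin : ‖x‖⁻¹ • (innerSL ℝ x) v = ⟪y, v⟫_ℝ := by
      simp [hyd, inner_smul_left]
    have : D v = (‖x‖⁻¹ • (innerSL ℝ x) v) • y + kap t e y • (v - (‖x‖⁻¹ • (innerSL ℝ x) v) • y) := rfl
    change D v = _
    rw [this, hin]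
  have hk : 0 ≤ kap t e y := by unfold kap; positivity
  rw [h3, h4, one_mul, abs_of_nonneg (pow_nonneg hk m)]

lemma tendsto_kap {F : Type*} [NormedAddCommGroup F] [InnerProductSpace ℝ F] {e y : F} (hey : y ≠ e) :
    Tendsto (fun t => kap t e y) (𝓝 1) (𝓝 0) := by
  have h1 : Tendsto (fun t => rad t / dist y (t • e)) (𝓝 1) (𝓝 (rad 1 / dist y ((1:ℝ) • e))) := by
    apply Tendsto.div
    · have : Continuous rad := by unfold rad; fun_prop
      exact this.tendsto 1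
    · have : Continuous fun t : ℝ => dist y (t • e) := by fun_prop
      exact this.tendsto 1
    · rw [one_smul]; exact dist_ne_zero.mpr hey
  have h2 := h1.pow 2
  simpa [kap, rad] using h2

end energy


section weaklim

lemma weak_of_ae_bdd {α : Type*} {mα : MeasurableSpace α} {μ : Measure α} [IsFiniteMeasure μ]
    {F : Type*} [NormedAddCommGroup F] [InnerProductSpace ℝ F] {p q : ℝ≥0∞}
    (hpq : p⁻¹ + q⁻¹ = 1) (hp : 1 < p) (u : ℕ → α → F) (v : α → F)
    (hu : ∀ k, AEStronglyMeasurable (u k) μ) (C : ℝ≥0) (hb : ∀ k, eLpNorm (u k) p μ ≤ C)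
    (hv : MemLp v p μ)
    (hae : ∀ᵐ x ∂μ, Tendsto (fun k => u k x) atTop (𝓝 (v x))) (h : α → F) (hh : MemLp h q μ) :
    Tendsto (fun k => ∫ x, ⟪h x, u k x⟫_ℝ ∂μ) atTop (𝓝 (∫ x, ⟪h x, v x⟫_ℝ ∂μ)) := by
  have hqp : q⁻¹ + p⁻¹ = 1⁻¹ := by rw [add_comm, hpq, inv_one]
  have : ENNReal.HolderTriple q p 1 := ⟨hqp⟩
  have hq1 : 1 ≤ q := by
    have : q⁻¹ ≤ 1 := by rw [← hpq]; exact le_add_self
    exact ENNReal.inv_le_one.mp this
  have hqt : q ≠ ⊤ := by
    rintro rfl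
    simp only [ENNReal.inv_top, add_zero] at hpq
    have : p = 1 := by rw [← inv_inv p, hpq, inv_one]
    exact hp.ne' this
  have hw : ∀ k, AEStronglyMeasurable (fun x => ⟪h x, u k x⟫_ℝ) μ := fun k =>
    hh.1.inner (hu k)
  have hwv : MemLp (fun x => ⟪h x, v x⟫_ℝ) 1 μ := by
    refine MemLp.of_bilin (p := q) (q := p) (fun a b => ⟪a, b⟫_ℝ) 1 hh hv (hh.1.inner hv.1) ?_
    filter_upwards with x
    rw [one_mul]
    exact nnnorm_inner_le_nnnorm _ _
  have hui : UnifIntegrable (fun k x => ⟪h x, u k x⟫_ℝ) 1 μ := by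
    intro ε hε
    obtain ⟨δ, hδ, hδ'⟩ := hh.eLpNorm_indicator_le hq1 hqt (ε := ε / (C + 1)) (by positivity)
    refine ⟨δ, hδ, fun k s hs hμ => ?_⟩
    have e1 : s.indicator (fun x => ⟪h x, u k x⟫_ℝ) = fun x => ⟪s.indicator h x, u k x⟫_ℝ := by
      ext x
      by_cases hx : x ∈ s <;> simp [hx]
    rw [e1]
    have e2 := eLpNorm_le_eLpNorm_mul_eLpNorm_of_nnnorm (μ := μ) (p := q) (q := p) (r := 1)
      (hh.1.indicator hs) (hu k) (fun a b => ⟪a, b⟫_ℝ) 1 (by
        filter_upwards with x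
        rw [one_mul]
        exact nnnorm_inner_le_nnnorm _ _)
    calc eLpNorm (fun x => ⟪s.indicator h x, u k x⟫_ℝ) 1 μ
        ≤ ((1 : ℝ≥0) : ℝ≥0∞) * eLpNorm (s.indicator h) q μ * eLpNorm (u k) p μ := e2
      _ ≤ ((1 : ℝ≥0) : ℝ≥0∞) * ENNReal.ofReal (ε / (C + 1)) * C := by
          gcongr
          · exact hδ' s hs hμ
          · exact hb k
      _ ≤ ENNReal.ofReal ε := by
          rw [ENNReal.coe_one, one_mul]
          have : (C : ℝ≥0∞) = ENNReal.ofReal (C : ℝ) := (ENNReal.ofReal_coe_nnreal).symm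
          rw [this, ← ENNReal.ofReal_mul (by positivity)]
          apply ENNReal.ofReal_le_ofReal
          rw [div_mul_eq_mul_div, div_le_iff₀ (by positivity)]
          nlinarith [C.2]
  have hae' : ∀ᵐ x ∂μ, Tendsto (fun k => ⟪h x, u k x⟫_ℝ) atTop (𝓝 ⟪h x, v x⟫_ℝ) := by
    filter_upwards [hae] with x hx
    exact (tendsto_const_nhds).inner hx
  have hL := tendsto_Lp_finite_of_tendsto_ae (μ := μ) (p := 1) le_rfl ENNReal.one_ne_top hw hwv hui hae'
  refine tendsto_integral_of_L1' _ hwv.1 ?_ hL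
  filter_upwards with k
  have := MemLp.of_bilin (p := q) (q := p) (r := 1) (fun a b => ⟪a, b⟫_ℝ) 1 hh
    (⟨hu k, lt_of_le_of_lt (hb k) ENNReal.coe_lt_top⟩ : MemLp (u k) p μ) (hw k) (by
      filter_upwards with x
      rw [one_mul]
      exact nnnorm_inner_le_nnnorm _ _)
  exact memLp_one_iff_integrable.mp this

end weaklim

section topol

lemma preconn_shell {n : ℕ} (hn : 2 ≤ n) (a b : ℝ) (ha : 0 ≤ a) :
    IsPreconnected {x : Eu n | a < ‖x‖ ∧ ‖x‖ < b} := by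
  have h1 : IsPreconnected (sphere (0 : Eu n) 1) := by
    apply isPreconnected_sphere
    rw [← Module.finrank_eq_rank, finrank_euclideanSpace, Fintype.card_fin]
    exact_mod_cast hn
  have h2 : IsPreconnected ((Ioo a b) ×ˢ (sphere (0 : Eu n) 1)) := isPreconnected_Ioo.prod h1
  have h3 := h2.image (fun q : ℝ × Eu n => q.1 • q.2) (by fun_prop)
  convert h3 using 1
  ext x
  simp only [mem_ofPred_eq, mem_image, mem_prod, mem_Ioo, mem_sphere_iff_norm, sub_zero, Prod.exists]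
  constructor
  · rintro ⟨h1, h2⟩
    have hx : ‖x‖ ≠ 0 := by linarith
    refine ⟨‖x‖, ‖x‖⁻¹ • x, ⟨⟨h1, h2⟩, ?_⟩, ?_⟩
    · rw [norm_smul, norm_inv, norm_norm]; field_simp
    · rw [smul_smul, mul_inv_cancel₀ hx, one_smul]
  · rintro ⟨s, y, ⟨⟨h1, h2⟩, h3⟩, rfl⟩
    rw [norm_smul, h3, Real.norm_eq_abs, abs_of_pos (by linarith)]
    constructor <;> linarith

/-- Rays meet every sphere after a homeomorphism of the shell. -/
lemma ray_meets {n : ℕ} (hn : 2 ≤ n) (g h : Eu n → Eu n) (hg : ContinuousOn g (shell n))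
    (hh : ContinuousOn h (shell n)) (hgm : MapsTo g (shell n) (shell n))
    (hhm : MapsTo h (shell n) (shell n)) (hgh : LeftInvOn h g (shell n))
    (hhg : LeftInvOn g h (shell n)) (w : Eu n) (hw : ‖w‖ = 1) (r : ℝ) (hr1 : 1 < r) (hr2 : r < 2) :
    ∃ s : ℝ, 1 < s ∧ s < 2 ∧ ‖h (s • w)‖ = r := by
  -- compact middle shell
  obtain ⟨η, hη, hη1, hη2⟩ : ∃ η : ℝ, 0 < η ∧ 1 + η < r ∧ r < 2 - η := by
    refine ⟨min (r - 1) (2 - r) / 2, ?_, ?_, ?_⟩
    · have : 0 < min (r - 1) (2 - r) := lt_min (by linarith) (by linarith)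
      linarith
    · have := min_le_left (r - 1) (2 - r)
      have h2 : 0 < min (r - 1) (2 - r) := lt_min (by linarith) (by linarith)
      linarith
    · have := min_le_right (r - 1) (2 - r)
      have h2 : 0 < min (r - 1) (2 - r) := lt_min (by linarith) (by linarith)
      linarith
  set K : Set (Eu n) := {x | 1 + η ≤ ‖x‖ ∧ ‖x‖ ≤ 2 - η} with hK
  have hKc : ∀ a b : ℝ, IsCompact {x : Eu n | a ≤ ‖x‖ ∧ ‖x‖ ≤ b} := by
    intro a b
    apply Metric.isCompact_of_isClosed_isBounded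
    · exact (isClosed_le continuous_const continuous_norm).inter
        (isClosed_le continuous_norm continuous_const)
    · apply (Metric.isBounded_closedBall (x := (0 : Eu n)) (r := b)).subset
      intro x hx
      simpa using hx.2
  have hKA : K ⊆ shell n := fun x hx => ⟨by linarith [hx.1], by linarith [hx.2]⟩
  have hKne : (r • w) ∈ K := by
    simp only [hK, mem_ofPred_eq, norm_smul, hw, Real.norm_eq_abs, mul_one]
    rw [abs_of_pos (by linarith)]
    constructor <;> linarith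
  have hgK : IsCompact (g '' K) := (hKc _ _).image_of_continuousOn (hg.mono hKA)
  obtain ⟨δ, hδ, hδ1, hδK⟩ : ∃ δ : ℝ, 0 < δ ∧ δ < 1 / 2 ∧ ∀ y ∈ g '' K, 1 + δ ≤ ‖y‖ ∧ ‖y‖ ≤ 2 - δ := by
    have hne : (g '' K).Nonempty := ⟨_, mem_image_of_mem g hKne⟩
    obtain ⟨y1, hy1, hm1⟩ := hgK.exists_isMinOn hne continuous_norm.continuousOn
    obtain ⟨y2, hy2, hm2⟩ := hgK.exists_isMaxOn hne continuous_norm.continuousOn
    have hA : ∀ y ∈ g '' K, y ∈ shell n := by
      rintro _ ⟨x, hx, rfl⟩; exact hgm (hKA hx)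
    have h1 := (hA y1 hy1).1
    have h2 := (hA y2 hy2).2
    refine ⟨min (1/4) (min (‖y1‖ - 1) (2 - ‖y2‖)), ?_, ?_, ?_⟩
    · exact lt_min (by norm_num) (lt_min (by linarith) (by linarith))
    · exact lt_of_le_of_lt (min_le_left _ _) (by norm_num)
    · intro y hy
      have a1 : ‖y1‖ ≤ ‖y‖ := hm1 hy
      have a2 : ‖y‖ ≤ ‖y2‖ := hm2 hy
      have b1 := min_le_right (1/4 : ℝ) (min (‖y1‖ - 1) (2 - ‖y2‖))
      have b2 := min_le_left (‖y1‖ - 1) (2 - ‖y2‖)
      have b3 := min_le_right (‖y1‖ - 1) (2 - ‖y2‖)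
      constructor <;> linarith
  set U1 : Set (Eu n) := {x | 1 < ‖x‖ ∧ ‖x‖ < 1 + δ} with hU1
  set U2 : Set (Eu n) := {x | 2 - δ < ‖x‖ ∧ ‖x‖ < 2} with hU2
  have hU1A : U1 ⊆ shell n := fun x hx => ⟨hx.1, by linarith [hx.2]⟩
  have hU2A : U2 ⊆ shell n := fun x hx => ⟨by linarith [hx.1], hx.2⟩
  have hN : ContinuousOn (fun y => ‖h y‖) (shell n) := hh.norm
  have hnot : ∀ y ∈ shell n, ‖h y‖ = r → 1 + δ ≤ ‖y‖ ∧ ‖y‖ ≤ 2 - δ := by
    intro y hy hyr
    apply hδK
    refine ⟨h y, ?_, hhg hy⟩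
    simp only [hK, mem_ofPred_eq, hyr]
    constructor <;> linarith
  -- dichotomy on the two collars
  have dich : ∀ U : Set (Eu n), IsPreconnected U → U ⊆ shell n →
      (∀ y ∈ U, ¬ (1 + δ ≤ ‖y‖ ∧ ‖y‖ ≤ 2 - δ)) →
      (∀ y ∈ U, ‖h y‖ < r) ∨ (∀ y ∈ U, r < ‖h y‖) := by
    intro U hUp hUA hUn
    by_contra hcon
    push Not at hcon
    obtain ⟨⟨y1, hy1, h1⟩, ⟨y2, hy2, h2⟩⟩ := hcon
    have := hUp.intermediate_value hy2 hy1 (hN.mono hUA)
    obtain ⟨y, hy, hyr⟩ := this ⟨h2, h1⟩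
    exact hUn y hy (hnot y (hUA hy) hyr)
  have d1 := dich U1 (preconn_shell hn 1 (1 + δ) (by norm_num)) hU1A (by
    intro y hy h'; linarith [hy.2, h'.1])
  have d2 := dich U2 (preconn_shell hn (2 - δ) 2 (by linarith)) hU2A (by
    intro y hy h'; linarith [hy.1, h'.2])
  -- the points on the ray in the collars
  have hp1 : ((1 + δ / 2) • w) ∈ U1 := by
    simp only [hU1, mem_ofPred_eq, norm_smul, hw, Real.norm_eq_abs, mul_one]
    rw [abs_of_pos (by linarith)]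
    constructor <;> linarith
  have hp2 : ((2 - δ / 2) • w) ∈ U2 := by
    simp only [hU2, mem_ofPred_eq, norm_smul, hw, Real.norm_eq_abs, mul_one]
    rw [abs_of_pos (by linarith)]
    constructor <;> linarith
  have hray : ContinuousOn (fun s : ℝ => ‖h (s • w)‖) (Icc (1 + δ / 2) (2 - δ / 2)) := by
    have : ContinuousOn (fun s : ℝ => s • w) (Icc (1 + δ / 2) (2 - δ / 2)) := by fun_prop
    refine hN.comp this ?_
    intro s hs
    simp only [shell, mem_ofPred_eq, norm_smul, hw, Real.norm_eq_abs, mul_one]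
    rw [abs_of_pos (by linarith [hs.1])]
    constructor <;> linarith [hs.1, hs.2]
  have hle : (1 + δ / 2) ≤ (2 - δ / 2) := by linarith
  -- extreme values in the middle
  have hmid : IsCompact {x : Eu n | 1 + δ ≤ ‖x‖ ∧ ‖x‖ ≤ 2 - δ} := hKc _ _
  have hmidA : {x : Eu n | 1 + δ ≤ ‖x‖ ∧ ‖x‖ ≤ 2 - δ} ⊆ shell n := fun x hx =>
    ⟨by linarith [hx.1], by linarith [hx.2]⟩
  have hmidne : ({x : Eu n | 1 + δ ≤ ‖x‖ ∧ ‖x‖ ≤ 2 - δ}).Nonempty := by
    refine ⟨(3 / 2 : ℝ) • w, ?_⟩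
    simp only [mem_ofPred_eq, norm_smul, hw, Real.norm_eq_abs, mul_one]
    rw [abs_of_pos (by norm_num)]
    constructor <;> linarith
  have hcase : ∀ y ∈ shell n, y ∈ U1 ∨ y ∈ U2 ∨ (1 + δ ≤ ‖y‖ ∧ ‖y‖ ≤ 2 - δ) := by
    intro y hy
    rcases lt_or_ge ‖y‖ (1 + δ) with h1 | h1
    · exact Or.inl ⟨hy.1, h1⟩
    · rcases lt_or_ge (2 - δ) ‖y‖ with h2 | h2
      · exact Or.inr (Or.inl ⟨h2, hy.2⟩)
      · exact Or.inr (Or.inr ⟨h1, h2⟩)
  have finish : ∀ s ∈ Icc (1 + δ / 2) (2 - δ / 2), ‖h (s • w)‖ = r →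
      ∃ s : ℝ, 1 < s ∧ s < 2 ∧ ‖h (s • w)‖ = r := fun s hs hsr =>
    ⟨s, by linarith [hs.1], by linarith [hs.2], hsr⟩
  rcases d1 with d1 | d1 <;> rcases d2 with d2 | d2
  · exfalso
    obtain ⟨y0, hy0, hmax⟩ := hmid.exists_isMaxOn hmidne (hN.mono hmidA)
    have hlt : ‖h y0‖ < 2 := (hhm (hmidA hy0)).2
    set M := max r ‖h y0‖ with hM
    have hM2 : M < 2 := max_lt hr2 hlt
    have hM1 : 1 < M := lt_of_lt_of_le hr1 (le_max_left _ _)
    have hx : (((M + 2) / 2) • w) ∈ shell n := by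
      simp only [shell, mem_ofPred_eq, norm_smul, hw, Real.norm_eq_abs, mul_one]
      rw [abs_of_pos (by linarith)]
      constructor <;> linarith
    have hy := hgm hx
    have hhy := hgh hx
    have hnorm : ‖h (g (((M + 2) / 2) • w))‖ = (M + 2) / 2 := by
      rw [hhy, norm_smul, hw, Real.norm_eq_abs, mul_one, abs_of_pos (by linarith)]
    have hbig : M < ‖h (g (((M + 2) / 2) • w))‖ := by rw [hnorm]; linarith
    rcases hcase _ hy with c | c | c
    · linarith [d1 _ c, le_max_left r ‖h y0‖]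
    · linarith [d2 _ c, le_max_left r ‖h y0‖]
    · have : ‖h (g (((M + 2) / 2) • w))‖ ≤ ‖h y0‖ := hmax c
      linarith [le_max_right r ‖h y0‖]
  · have := intermediate_value_Icc hle hray
    obtain ⟨s, hs, hsr⟩ := this ⟨(d1 _ hp1).le, (d2 _ hp2).le⟩
    exact finish s hs hsr
  · have := intermediate_value_Icc' hle hray
    obtain ⟨s, hs, hsr⟩ := this ⟨(d2 _ hp2).le, (d1 _ hp1).le⟩
    exact finish s hs hsr
  · exfalso
    obtain ⟨y0, hy0, hmin⟩ := hmid.exists_isMinOn hmidne (hN.mono hmidA)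
    have hlt : 1 < ‖h y0‖ := (hhm (hmidA hy0)).1
    set M := min r ‖h y0‖ with hM
    have hM2 : M < 2 := lt_of_le_of_lt (min_le_left _ _) hr2
    have hM1 : 1 < M := lt_min hr1 hlt
    have hx : (((M + 1) / 2) • w) ∈ shell n := by
      simp only [shell, mem_ofPred_eq, norm_smul, hw, Real.norm_eq_abs, mul_one]
      rw [abs_of_pos (by linarith)]
      constructor <;> linarith
    have hy := hgm hx
    have hhy := hgh hx
    have hnorm : ‖h (g (((M + 1) / 2) • w))‖ = (M + 1) / 2 := by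
      rw [hhy, norm_smul, hw, Real.norm_eq_abs, mul_one, abs_of_pos (by linarith)]
    have hbig : ‖h (g (((M + 1) / 2) • w))‖ < M := by rw [hnorm]; linarith
    rcases hcase _ hy with c | c | c
    · linarith [d1 _ c, min_le_left r ‖h y0‖]
    · linarith [d2 _ c, min_le_left r ‖h y0‖]
    · have : ‖h y0‖ ≤ ‖h (g (((M + 1) / 2) • w))‖ := hmin c
      linarith [min_le_right r ‖h y0‖]

end topol


section final

lemma shell_ne {x : Eu n} (hx : x ∈ shell n) : x ≠ 0 := by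
  rintro rfl
  have := hx.1
  rw [norm_zero] at this
  linarith

lemma shell_bdd (n : ℕ) : Bornology.IsBounded (shell n) := by
  apply (Metric.isBounded_closedBall (x := (0 : Eu n)) (r := 2)).subset
  intro x hx
  simpa using hx.2.le

lemma vol_shell_lt (n : ℕ) : (volume (shell n)) < ⊤ := (shell_bdd n).measure_lt_top

instance (n : ℕ) : IsFiniteMeasure ((volume : Measure (Eu n)).restrict (shell n)) :=
  ⟨by rw [Measure.restrict_apply_univ]; exact vol_shell_lt n⟩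

/-- the unit vector `e` -/
def e0 (m : ℕ) : Eu (m + 1) := EuclideanSpace.single 0 1

lemma norm_e0 (m : ℕ) : ‖e0 m‖ = 1 := by simp [e0]

/-- the limit map -/
def flim (m : ℕ) (x : Eu (m + 1)) : Eu (m + 1) := ‖x‖ • e0 m

/-- its differential -/
def dlim (m : ℕ) (x : Eu (m + 1)) : Eu (m + 1) →L[ℝ] Eu (m + 1) :=
  (‖x‖⁻¹ • innerSL ℝ x).smulRight (e0 m)

lemma contDiffAt_flim {m : ℕ} {x : Eu (m + 1)} (hx : x ≠ 0) : ContDiffAt ℝ 1 (flim m) x :=
  (contDiffAt_norm ℝ hx).smul contDiffAt_const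

lemma fderiv_flim {m : ℕ} {x : Eu (m + 1)} (hx : x ≠ 0) : fderiv ℝ (flim m) x = dlim m x := by
  have h := (hasFDerivAt_nrm hx).smul_const (e0 m)
  exact h.fderiv

lemma norm_dlim_le {m : ℕ} {x : Eu (m + 1)} (hx : x ≠ 0) : ‖dlim m x‖ ≤ 1 := by
  have hx' : ‖x‖ ≠ 0 := norm_ne_zero_iff.mpr hx
  rw [dlim, ContinuousLinearMap.norm_smulRight_apply, norm_e0, mul_one, norm_smul,
    innerSL_apply_norm, norm_inv, norm_norm, inv_mul_cancel₀ hx']

/-- the explicit form of the differential of the approximating maps -/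
lemma fder_apply {t : ℝ} {F : Type*} [NormedAddCommGroup F] [InnerProductSpace ℝ F] {e x : F} (v : F) :
    fder t e x v = (ℝ ∙ ((‖x‖⁻¹ • x) - t • e))ᗮ.reflection (⟪‖x‖⁻¹ • x, v⟫_ℝ • (‖x‖⁻¹ • x) +
      kap t e (‖x‖⁻¹ • x) • (v - ⟪‖x‖⁻¹ • x, v⟫_ℝ • (‖x‖⁻¹ • x))) := by
  have hin : ‖x‖⁻¹ • (innerSL ℝ x) v = ⟪‖x‖⁻¹ • x, v⟫_ℝ := by
    simp [inner_smul_left]
  rw [← hin]
  rfl

lemma norm_fder_sub_dlim {m : ℕ} {t : ℝ} (ht : 1 < t) {x : Eu (m + 1)} (hx : x ≠ 0) :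
    ‖fder t (e0 m) x - dlim m x‖ ≤ (t - 1) + kap t (e0 m) (‖x‖⁻¹ • x) * (t + 2) := by
  have hy := norm_unitvec hx
  set y := ‖x‖⁻¹ • x with hyd
  have hk : 0 ≤ kap t (e0 m) y := by unfold kap; positivity
  refine ContinuousLinearMap.opNorm_le_bound _ (by nlinarith) fun v => ?_
  rw [sub_apply, fder_apply, ← hyd, map_add, map_smul _ (⟪y, v⟫_ℝ), map_smul _ (kap t (e0 m) y)]
  have hd : dlim m x v = ⟪y, v⟫_ℝ • e0 m := by
    have hin : ‖x‖⁻¹ • (innerSL ℝ x) v = ⟪y, v⟫_ℝ := by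
      simp [hyd, inner_smul_left]
    rw [← hin]; rfl
  rw [hd, ← inversion_eq_reflection ht (norm_e0 m) hy]
  have hinv : EuclideanGeometry.inversion (t • e0 m) (rad t) y =
      t • e0 m + kap t (e0 m) y • (y - t • e0 m) := by
    simp only [EuclideanGeometry.inversion, kap, vsub_eq_sub, vadd_eq_add]
    exact add_comm _ _
  have h1 : ‖EuclideanGeometry.inversion (t • e0 m) (rad t) y - e0 m‖ ≤
      (t - 1) + kap t (e0 m) y * (t + 1) := by
    rw [hinv]
    have : t • e0 m + kap t (e0 m) y • (y - t • e0 m) - e0 m =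
        (t - 1) • e0 m + kap t (e0 m) y • (y - t • e0 m) := by module
    rw [this]
    refine (norm_add_le _ _).trans ?_
    rw [norm_smul, norm_e0, norm_smul, Real.norm_eq_abs, Real.norm_eq_abs, abs_of_nonneg hk,
      abs_of_pos (by linarith : 0 < t - 1), mul_one]
    gcongr
    refine (norm_sub_le _ _).trans ?_
    rw [hy, norm_smul, norm_e0, Real.norm_eq_abs, abs_of_pos (by linarith)]
    linarith
  have hin : |⟪y, v⟫_ℝ| ≤ ‖v‖ := by
    calc |⟪y, v⟫_ℝ| ≤ ‖y‖ * ‖v‖ := abs_real_inner_le_norm _ _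
      _ = ‖v‖ := by rw [hy, one_mul]
  have h2 : ‖v - ⟪y, v⟫_ℝ • y‖ ≤ ‖v‖ := by
    apply le_of_sq_le_sq _ (norm_nonneg _)
    rw [norm_sub_sq_real, norm_smul, hy, inner_smul_right, real_inner_comm, Real.norm_eq_abs,
      mul_one, sq_abs]
    nlinarith [sq_nonneg ⟪y, v⟫_ℝ]
  have hsplit : ⟪y, v⟫_ℝ • EuclideanGeometry.inversion (t • e0 m) (rad t) y +
      kap t (e0 m) y • (ℝ ∙ (y - t • e0 m))ᗮ.reflection (v - ⟪y, v⟫_ℝ • y) - ⟪y, v⟫_ℝ • e0 m =
      ⟪y, v⟫_ℝ • (EuclideanGeometry.inversion (t • e0 m) (rad t) y - e0 m) +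
      kap t (e0 m) y • (ℝ ∙ (y - t • e0 m))ᗮ.reflection (v - ⟪y, v⟫_ℝ • y) := by module
  rw [hsplit]
  refine (norm_add_le _ _).trans ?_
  rw [norm_smul, norm_smul, LinearIsometryEquiv.norm_map, Real.norm_eq_abs, Real.norm_eq_abs,
    abs_of_nonneg hk]
  calc |⟪y, v⟫_ℝ| * ‖EuclideanGeometry.inversion (t • e0 m) (rad t) y - e0 m‖ +
        kap t (e0 m) y * ‖v - ⟪y, v⟫_ℝ • y‖
      ≤ ‖v‖ * ((t - 1) + kap t (e0 m) y * (t + 1)) + kap t (e0 m) y * ‖v‖ := by gcongr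
    _ = ((t - 1) + kap t (e0 m) y * (t + 2)) * ‖v‖ := by ring

lemma mapsTo_fmap {m : ℕ} {t : ℝ} (ht : 1 < t) :
    MapsTo (fmap t (e0 m)) (shell (m + 1)) (shell (m + 1)) := by
  intro x hx
  have := norm_fmap ht (norm_e0 m) (shell_ne hx)
  simp only [shell, mem_ofPred_eq, this]
  exact hx

lemma leftInv_fmap {m : ℕ} {t : ℝ} (ht : 1 < t) :
    LeftInvOn (fmap t (e0 m)) (fmap t (e0 m)) (shell (m + 1)) := fun _ hx =>
  fmap_fmap ht (norm_e0 m) (shell_ne hx)

lemma isDiffeo_fmap {m : ℕ} {t : ℝ} (ht : 1 < t) :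
    IsDiffeo ((⊤ : ℕ∞) : WithTop ℕ∞) (shell (m + 1)) (shell (m + 1)) (fmap t (e0 m)) := by
  have hc : ContDiffOn ℝ ((⊤ : ℕ∞) : WithTop ℕ∞) (fmap t (e0 m)) (shell (m + 1)) := fun x hx =>
    (contDiffAt_fmap ht (norm_e0 m) (shell_ne hx)).contDiffWithinAt
  refine ⟨⟨mapsTo_fmap ht, (leftInv_fmap ht).injOn, ?_⟩, hc, fmap t (e0 m),
    ⟨leftInv_fmap ht, leftInv_fmap ht⟩, hc⟩
  intro y hy
  exact ⟨fmap t (e0 m) y, mapsTo_fmap ht hy, leftInv_fmap ht hy⟩

/-- total conformal energy -/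
lemma lintegral_kap_le {m : ℕ} {t : ℝ} (ht : 1 < t) :
    ∫⁻ x in shell (m + 1), ENNReal.ofReal (kap t (e0 m) (‖x‖⁻¹ • x) ^ m) ≤
      volume (shell (m + 1)) := by
  have h1 := lintegral_abs_det_fderiv_le_addHaar_image (volume : Measure (Eu (m + 1)))
    (shell_isOpen (m + 1)).measurableSet (f := fmap t (e0 m)) (f' := fder t (e0 m))
    (fun x hx => (hasFDerivAt_fmap ht (norm_e0 m) (shell_ne hx)).hasFDerivWithinAt)
    (leftInv_fmap ht).injOn
  calc ∫⁻ x in shell (m + 1), ENNReal.ofReal (kap t (e0 m) (‖x‖⁻¹ • x) ^ m)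
      = ∫⁻ x in shell (m + 1), ENNReal.ofReal |(fder t (e0 m) x).det| := by
        apply setLIntegral_congr_fun (shell_isOpen (m + 1)).measurableSet
        intro x hx
        simp only [abs_det_fder (shell_ne hx)]
    _ ≤ volume (fmap t (e0 m) '' shell (m + 1)) := h1
    _ ≤ volume (shell (m + 1)) := measure_mono (mapsTo_fmap ht).image_subset

lemma eLpNorm_pow {α E : Type*} {mα : MeasurableSpace α} {μ : Measure α} [NormedAddCommGroup E]
    {m : ℕ} (hm : m ≠ 0) (f : α → E) :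
    eLpNorm f (m : ℝ≥0∞) μ ^ m = ∫⁻ x, ‖f x‖ₑ ^ m ∂μ := by
  have h0 : ((m : ℝ≥0∞)) ≠ 0 := by exact_mod_cast hm
  rw [eLpNorm_eq_lintegral_rpow_enorm_toReal h0 (ENNReal.natCast_ne_top m)]
  simp only [ENNReal.toReal_natCast, ENNReal.rpow_natCast]
  rw [← ENNReal.rpow_natCast, ← ENNReal.rpow_mul]
  have : (1 / (m : ℝ)) * m = 1 := by
    have : (m : ℝ) ≠ 0 := by exact_mod_cast hm
    field_simp
  rw [this, ENNReal.rpow_one]

/-- uniform energy bound -/
lemma energy_bound {m : ℕ} (hm : m ≠ 0) {t : ℝ} (ht : 1 < t) :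
    eLpNorm (fderiv ℝ (fmap t (e0 m))) (m : ℝ≥0∞) (volume.restrict (shell (m + 1))) ^ m ≤
      2 ^ m * (volume (shell (m + 1)) + volume (shell (m + 1))) := by
  rw [eLpNorm_pow hm]
  calc ∫⁻ x in shell (m + 1), ‖fderiv ℝ (fmap t (e0 m)) x‖ₑ ^ m
      ≤ ∫⁻ x in shell (m + 1), 2 ^ m * (1 + ENNReal.ofReal (kap t (e0 m) (‖x‖⁻¹ • x) ^ m)) := by
        apply setLIntegral_mono' (shell_isOpen (m + 1)).measurableSet
        intro x hx
        have hx0 := shell_ne hx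
        rw [(hasFDerivAt_fmap ht (norm_e0 m) hx0).fderiv]
        have hk : 0 ≤ kap t (e0 m) (‖x‖⁻¹ • x) := by unfold kap; positivity
        set κ := kap t (e0 m) (‖x‖⁻¹ • x) with hκ
        have h1 : ‖fder t (e0 m) x‖ ^ m ≤ 2 ^ m * (1 + κ ^ m) := by
          calc ‖fder t (e0 m) x‖ ^ m ≤ (1 + κ) ^ m :=
                pow_le_pow_left₀ (norm_nonneg _) (norm_fder_le hx0) m
            _ ≤ (2 * max 1 κ) ^ m := by
                apply pow_le_pow_left₀ (by linarith)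
                linarith [le_max_left 1 κ, le_max_right 1 κ]
            _ = 2 ^ m * (max 1 κ) ^ m := by rw [mul_pow]
            _ ≤ 2 ^ m * (1 + κ ^ m) := by
                gcongr
                rcases max_cases 1 κ with h | h
                · rw [h.1, one_pow]; linarith [pow_nonneg hk m]
                · rw [h.1]; linarith [pow_nonneg hk m]
        have h2 : ‖fder t (e0 m) x‖ₑ ^ m = ENNReal.ofReal (‖fder t (e0 m) x‖ ^ m) := by
          rw [ENNReal.ofReal_pow (norm_nonneg _), ofReal_norm]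
        rw [h2]
        calc ENNReal.ofReal (‖fder t (e0 m) x‖ ^ m) ≤ ENNReal.ofReal (2 ^ m * (1 + κ ^ m)) :=
              ENNReal.ofReal_le_ofReal h1
          _ = 2 ^ m * (1 + ENNReal.ofReal (κ ^ m)) := by
              rw [ENNReal.ofReal_mul (by positivity), ENNReal.ofReal_add (by norm_num) (by positivity),
                ENNReal.ofReal_pow (by norm_num)]
              simp
    _ = 2 ^ m * ∫⁻ x in shell (m + 1), (1 + ENNReal.ofReal (kap t (e0 m) (‖x‖⁻¹ • x) ^ m)) := by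
        rw [lintegral_const_mul' _ _ (by simp)]
    _ = 2 ^ m * (volume (shell (m + 1)) +
          ∫⁻ x in shell (m + 1), ENNReal.ofReal (kap t (e0 m) (‖x‖⁻¹ • x) ^ m)) := by
        rw [lintegral_add_left measurable_const]
        simp
    _ ≤ 2 ^ m * (volume (shell (m + 1)) + volume (shell (m + 1))) := by
        gcongr
        exact lintegral_kap_le ht

lemma isSobolev_flim {m : ℕ} (p : ℝ≥0∞) :
    IsSobolev p (shell (m + 1)) (flim m) (dlim m) := by
  have hms := (shell_isOpen (m + 1)).measurableSet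
  have hcd : ContDiffOn ℝ 1 (flim m) (shell (m + 1)) := fun x hx =>
    (contDiffAt_flim (shell_ne hx)).contDiffWithinAt
  have hcont : ContinuousOn (dlim m) (shell (m + 1)) := by
    have := hcd.continuousOn_fderiv_of_isOpen (shell_isOpen _) le_rfl
    exact this.congr fun x hx => (fderiv_flim (shell_ne hx)).symm
  refine ⟨?_, ?_, ?_⟩
  · refine MemLp.of_bound (hcd.continuousOn.aestronglyMeasurable hms) 2 ?_
    rw [ae_restrict_iff' hms]
    filter_upwards with x hx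
    rw [flim, norm_smul, norm_e0, norm_norm, mul_one]
    exact hx.2.le
  · refine MemLp.of_bound (hcont.aestronglyMeasurable hms) 1 ?_
    rw [ae_restrict_iff' hms]
    filter_upwards with x hx
    exact norm_dlim_le (shell_ne hx)
  · intro φ h1 h2 h3 v
    rw [isWeakDiff_of_contDiffOn (shell_isOpen _) hcd φ h1 h2 h3 v]
    congr 1
    apply setIntegral_congr_fun hms
    intro x hx
    simp only [fderiv_flim (shell_ne hx)]

lemma isSobolev_fmap {m : ℕ} (hm : m ≠ 0) {t : ℝ} (ht : 1 < t) :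
    IsSobolev (m : ℝ≥0∞) (shell (m + 1)) (fmap t (e0 m)) (fderiv ℝ (fmap t (e0 m))) := by
  have hms := (shell_isOpen (m + 1)).measurableSet
  have hcd : ContDiffOn ℝ 1 (fmap t (e0 m)) (shell (m + 1)) := fun x hx =>
    ((contDiffAt_fmap ht (norm_e0 m) (shell_ne hx)).of_le (by
      exact_mod_cast le_top)).contDiffWithinAt
  have hcont := hcd.continuousOn_fderiv_of_isOpen (shell_isOpen _) le_rfl
  refine ⟨?_, ?_, isWeakDiff_of_contDiffOn (shell_isOpen _) hcd⟩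
  · refine MemLp.of_bound (hcd.continuousOn.aestronglyMeasurable hms) 2 ?_
    rw [ae_restrict_iff' hms]
    filter_upwards with x hx
    rw [norm_fmap ht (norm_e0 m) (shell_ne hx)]
    exact hx.2.le
  · refine ⟨hcont.aestronglyMeasurable hms, ?_⟩
    have h1 := energy_bound hm ht
    have h2 : 2 ^ m * (volume (shell (m + 1)) + volume (shell (m + 1))) < ⊤ :=
      ENNReal.mul_lt_top (by simp) (ENNReal.add_lt_top.mpr ⟨vol_shell_lt _, vol_shell_lt _⟩)
    by_contra hcon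
    have : eLpNorm (fderiv ℝ (fmap t (e0 m))) (m : ℝ≥0∞) (volume.restrict (shell (m + 1))) = ⊤ := by
      simpa using hcon
    rw [this, ENNReal.top_pow hm] at h1
    exact absurd h1 (not_le.mpr h2)

/-- parameters tending to one -/
def tk (k : ℕ) : ℝ := 1 + 1 / ((k : ℝ) + 1)

lemma one_lt_tk (k : ℕ) : 1 < tk k := by
  have : (0 : ℝ) < 1 / ((k : ℝ) + 1) := by positivity
  unfold tk; linarith

lemma tendsto_tk : Tendsto tk atTop (𝓝 1) := by
  have h := (tendsto_one_div_add_atTop_nhds_zero_nat (𝕜 := ℝ)).const_add 1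
  rw [add_zero] at h
  exact h

/-- almost every point is off the ray -/
lemma ae_off_ray {m : ℕ} (hm : 1 ≤ m) :
    ∀ᵐ x ∂((volume : Measure (Eu (m + 1))).restrict (shell (m + 1))), ‖x‖⁻¹ • x ≠ e0 m := by
  apply ae_restrict_of_ae
  have h0 : (volume : Measure (Eu (m + 1))) ((ℝ ∙ e0 m : Submodule ℝ (Eu (m + 1))) : Set (Eu (m + 1))) = 0 := by
    apply Measure.addHaar_submodule
    intro htop
    have hne : e0 m ≠ 0 := by
      intro h
      have := norm_e0 m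
      rw [h, norm_zero] at this
      exact zero_ne_one this
    have h1 : Module.finrank ℝ (ℝ ∙ e0 m : Submodule ℝ (Eu (m + 1))) = 1 := finrank_span_singleton hne
    rw [htop, finrank_top, finrank_euclideanSpace, Fintype.card_fin] at h1
    omega
  rw [ae_iff]
  apply measure_mono_null _ h0
  intro x hx
  have hx' : ‖x‖⁻¹ • x = e0 m := by simpa using hx
  have hx0 : ‖x‖ ≠ 0 := by
    intro h
    rw [h, inv_zero, zero_smul] at hx'
    have := norm_e0 m
    rw [← hx', norm_zero] at this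
    exact zero_ne_one this
  rw [SetLike.mem_coe, Submodule.mem_span_singleton]
  exact ⟨‖x‖, by rw [← hx', smul_smul, mul_inv_cancel₀ hx0, one_smul]⟩

lemma tendsto_fmap {m : ℕ} {x : Eu (m + 1)} (hxe : ‖x‖⁻¹ • x ≠ e0 m) :
    Tendsto (fun k => fmap (tk k) (e0 m) x) atTop (𝓝 (flim m x)) := by
  have hk := (tendsto_kap hxe).comp tendsto_tk
  have h1 : ∀ k, fmap (tk k) (e0 m) x =
      ‖x‖ • (tk k • e0 m + kap (tk k) (e0 m) (‖x‖⁻¹ • x) • (‖x‖⁻¹ • x - tk k • e0 m)) := by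
    intro k
    rw [fmap]
    simp only [EuclideanGeometry.inversion, kap, vsub_eq_sub, vadd_eq_add]
    congr 1
    exact add_comm _ _
  simp only [h1]
  have h2 : Tendsto (fun k => ‖x‖ • (tk k • e0 m + kap (tk k) (e0 m) (‖x‖⁻¹ • x) •
      (‖x‖⁻¹ • x - tk k • e0 m))) atTop
      (𝓝 (‖x‖ • ((1 : ℝ) • e0 m + (0 : ℝ) • (‖x‖⁻¹ • x - (1 : ℝ) • e0 m)))) := by
    apply Tendsto.const_smul
    apply Tendsto.add
    · exact tendsto_tk.smul_const _
    · exact hk.smul (tendsto_const_nhds.sub (tendsto_tk.smul_const _))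
  simpa [flim] using h2

lemma tendsto_fderiv_fmap {m : ℕ} {x : Eu (m + 1)} (hx : x ≠ 0) (hxe : ‖x‖⁻¹ • x ≠ e0 m) :
    Tendsto (fun k => fderiv ℝ (fmap (tk k) (e0 m)) x) atTop (𝓝 (dlim m x)) := by
  have hk := (tendsto_kap hxe).comp tendsto_tk
  rw [tendsto_iff_norm_sub_tendsto_zero]
  have h1 : ∀ k, ‖fderiv ℝ (fmap (tk k) (e0 m)) x - dlim m x‖ ≤
      (tk k - 1) + kap (tk k) (e0 m) (‖x‖⁻¹ • x) * (tk k + 2) := by
    intro k
    rw [(hasFDerivAt_fmap (one_lt_tk k) (norm_e0 m) hx).fderiv]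
    exact norm_fder_sub_dlim (one_lt_tk k) hx
  have h2 : Tendsto (fun k => (tk k - 1) + kap (tk k) (e0 m) (‖x‖⁻¹ • x) * (tk k + 2)) atTop
      (𝓝 ((1 - 1) + 0 * (1 + 2))) := by
    apply Tendsto.add
    · exact tendsto_tk.sub_const 1
    · exact hk.mul (tendsto_tk.add_const 2)
  have h3 : ((1 : ℝ) - 1) + 0 * (1 + 2) = 0 := by norm_num
  rw [h3] at h2
  exact squeeze_zero (fun k => norm_nonneg _) h1 h2

/-- weak convergence -/
lemma weak_part {m : ℕ} (hm : 2 ≤ m) :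
    flim m ∈ weakClosure ((⊤ : ℕ∞) : WithTop ℕ∞) (m : ℝ≥0∞) (shell (m + 1)) (shell (m + 1)) := by
  have hm0 : m ≠ 0 := by omega
  have hms := (shell_isOpen (m + 1)).measurableSet
  have hp : 1 < (m : ℝ≥0∞) := by exact_mod_cast (show 1 < m by omega)
  have hae := ae_off_ray (m := m) (by omega)
  have haeA : ∀ᵐ x ∂((volume : Measure (Eu (m + 1))).restrict (shell (m + 1))), x ∈ shell (m + 1) :=
    ae_restrict_mem hms
  refine ⟨?_, dlim m, fun k => fmap (tk k) (e0 m), fun k => fderiv ℝ (fmap (tk k) (e0 m)),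
    isSobolev_flim _, fun k => ⟨isDiffeo_fmap (one_lt_tk k), isSobolev_fmap hm0 (one_lt_tk k)⟩,
    ?_, ?_⟩
  · filter_upwards [haeA] with x hx
    simp only [shell, mem_ofPred_eq, flim, norm_smul, norm_e0, norm_norm, mul_one]
    exact hx
  · intro q hq h hh
    -- bound for the functions
    obtain ⟨C, hC⟩ : ∃ C : ℝ≥0, ∀ k, eLpNorm (fmap (tk k) (e0 m)) (m : ℝ≥0∞)
        (volume.restrict (shell (m + 1))) ≤ C := by
      set V := (volume.restrict (shell (m + 1)) (univ : Set (Eu (m + 1)))) with hV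
      have hVt : V ≠ ⊤ := measure_ne_top _ _
      refine ⟨(V ^ (m : ℝ≥0∞).toReal⁻¹ * ENNReal.ofReal 2).toNNReal, fun k => ?_⟩
      rw [ENNReal.coe_toNNReal]
      · apply eLpNorm_le_of_ae_bound
        filter_upwards [haeA] with x hx
        rw [norm_fmap (one_lt_tk k) (norm_e0 m) (shell_ne hx)]
        exact hx.2.le
      · apply ENNReal.mul_ne_top _ ENNReal.ofReal_ne_top
        exact (ENNReal.rpow_lt_top_of_nonneg (by positivity) hVt).ne
    refine weak_of_ae_bdd hq hp (fun k => fmap (tk k) (e0 m)) (flim m)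
      (fun k => (isSobolev_fmap hm0 (one_lt_tk k)).1.1) C hC (isSobolev_flim _).1 ?_ h hh
    filter_upwards [haeA, hae] with x hx hxe
    exact tendsto_fmap hxe
  · intro v q hq h hh
    set B : ℝ≥0∞ := 2 ^ m * (volume (shell (m + 1)) + volume (shell (m + 1))) with hB
    have hBt : B < ⊤ :=
      ENNReal.mul_lt_top (by simp) (ENNReal.add_lt_top.mpr ⟨vol_shell_lt _, vol_shell_lt _⟩)
    obtain ⟨C, hC⟩ : ∃ C : ℝ≥0, ∀ k, eLpNorm (fderiv ℝ (fmap (tk k) (e0 m))) (m : ℝ≥0∞)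
        (volume.restrict (shell (m + 1))) ≤ C := by
      refine ⟨(B + 1).toNNReal, fun k => ?_⟩
      rw [ENNReal.coe_toNNReal (ENNReal.add_lt_top.mpr ⟨hBt, ENNReal.one_lt_top⟩).ne]
      by_contra hcon
      push Not at hcon
      have h1 := energy_bound hm0 (one_lt_tk k)
      have h2 : B + 1 ≤ (B + 1) ^ m := by
        apply le_self_pow₀ (by simp) hm0
      have h3 : (B + 1) ^ m ≤ eLpNorm (fderiv ℝ (fmap (tk k) (e0 m))) (m : ℝ≥0∞)
        (volume.restrict (shell (m + 1))) ^ m := by gcongr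
      have h4 : B + 1 ≤ B := h2.trans (h3.trans h1)
      exact absurd h4 (not_le.mpr (ENNReal.lt_add_right hBt.ne one_ne_zero))
    have hmeas : ∀ k, AEStronglyMeasurable (fun x => fderiv ℝ (fmap (tk k) (e0 m)) x v)
        (volume.restrict (shell (m + 1))) := fun k =>
      (isSobolev_fmap hm0 (one_lt_tk k)).2.1.1.apply_continuousLinearMap v
    refine weak_of_ae_bdd hq hp (fun k x => fderiv ℝ (fmap (tk k) (e0 m)) x v)
      (fun x => dlim m x v) hmeas (C * ‖v‖₊) ?_ ?_ ?_ h hh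
    · intro k
      have h1 : eLpNorm (fun x => fderiv ℝ (fmap (tk k) (e0 m)) x v) (m : ℝ≥0∞)
          (volume.restrict (shell (m + 1))) ≤
          ENNReal.ofReal ‖v‖ * eLpNorm (fderiv ℝ (fmap (tk k) (e0 m))) (m : ℝ≥0∞)
          (volume.restrict (shell (m + 1))) := by
        apply eLpNorm_le_mul_eLpNorm_of_ae_le_mul
        filter_upwards with x
        rw [mul_comm]
        exact ContinuousLinearMap.le_opNorm _ _
      refine h1.trans ?_
      rw [mul_comm, ENNReal.coe_mul]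
      gcongr
      · exact hC k
      · rw [ofReal_norm]; exact le_rfl
    · have h1 := (isSobolev_flim (m := m) (m : ℝ≥0∞)).2.1
      refine MemLp.of_le_mul h1 (c := ‖v‖) (h1.1.apply_continuousLinearMap v) ?_
      filter_upwards with x
      rw [mul_comm]
      exact ContinuousLinearMap.le_opNorm _ _
    · filter_upwards [haeA, hae] with x hx hxe
      exact ((ContinuousLinearMap.apply ℝ (Eu (m + 1)) v).continuous.tendsto _).comp
        (tendsto_fderiv_fmap (shell_ne hx) hxe)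

/-- the derivative of `z ↦ z / |z|` -/
def nder {F : Type*} [NormedAddCommGroup F] [InnerProductSpace ℝ F] (z : F) : F →L[ℝ] F :=
  ‖z‖⁻¹ • (ContinuousLinearMap.id ℝ F - (‖z‖⁻¹ • innerSL ℝ z).smulRight (‖z‖⁻¹ • z))

lemma nder_apply {F : Type*} [NormedAddCommGroup F] [InnerProductSpace ℝ F] (z w : F) :
    nder z w = ‖z‖⁻¹ • (w - ⟪‖z‖⁻¹ • z, w⟫_ℝ • (‖z‖⁻¹ • z)) := by
  have hin : ‖z‖⁻¹ • (innerSL ℝ z) w = ⟪‖z‖⁻¹ • z, w⟫_ℝ := by
    simp [inner_smul_left]
  rw [← hin]; rfl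

lemma norm_nder_apply_le {F : Type*} [NormedAddCommGroup F] [InnerProductSpace ℝ F] {z : F}
    (hz : 1 ≤ ‖z‖) (w : F) : ‖nder z w‖ ≤ ‖w‖ := by
  have hz0 : z ≠ 0 := by
    rintro rfl; rw [norm_zero] at hz; linarith
  have hu := norm_unitvec hz0
  rw [nder_apply]
  set u := ‖z‖⁻¹ • z
  have h2 : ‖w - ⟪u, w⟫_ℝ • u‖ ≤ ‖w‖ := by
    apply le_of_sq_le_sq _ (norm_nonneg _)
    rw [norm_sub_sq_real, norm_smul, hu, inner_smul_right, real_inner_comm, Real.norm_eq_abs,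
      mul_one, sq_abs]
    nlinarith [sq_nonneg ⟪u, w⟫_ℝ]
  rw [norm_smul, norm_inv, norm_norm]
  calc ‖z‖⁻¹ * ‖w - ⟪u, w⟫_ℝ • u‖ ≤ 1 * ‖w‖ := by
        gcongr
        exact inv_le_one_of_one_le₀ hz
    _ = ‖w‖ := one_mul _

/-- Every `C¹` diffeomorphism `g` of the shell is far from the limit map in `W^{1,m}`. -/
lemma far {m : ℕ} (hm : 1 ≤ m) (g : Eu (m + 1) → Eu (m + 1))
    (hg : IsDiffeo 1 (shell (m + 1)) (shell (m + 1)) g) :
    volume (shell (m + 1)) ≤ ((m.factorial : ℝ≥0∞) * 2 ^ m) *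
      ∫⁻ x in shell (m + 1), ‖fderiv ℝ g x - dlim m x‖ₑ ^ m := by
  obtain ⟨hbij, hgd, h, hinv, hhd⟩ := hg
  have hmsr := (shell_isOpen (m + 1)).measurableSet
  have hgm : MapsTo g (shell (m + 1)) (shell (m + 1)) := hbij.mapsTo
  have hhm : MapsTo h (shell (m + 1)) (shell (m + 1)) := by
    intro y hy
    obtain ⟨x, hx, rfl⟩ := hbij.surjOn hy
    rw [hinv.1 hx]; exact hx
  set G : Eu (m + 1) → Eu (m + 1) := fun x => ‖x‖ • (‖g x‖⁻¹ • g x) with hG
  set M : Eu (m + 1) → (Eu (m + 1) →L[ℝ] Eu (m + 1)) := fun x =>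
    ‖x‖ • (nder (g x) ∘L fderiv ℝ g x) + (‖x‖⁻¹ • innerSL ℝ x).smulRight (‖g x‖⁻¹ • g x) with hM
  have hder : ∀ x ∈ shell (m + 1), HasFDerivWithinAt G (M x) (shell (m + 1)) x := by
    intro x hx
    have hx0 := shell_ne hx
    have hgx0 := shell_ne (hgm hx)
    have hgx : HasFDerivAt g (fderiv ℝ g x) x :=
      ((hgd.differentiableOn (by norm_num)).differentiableAt
        ((shell_isOpen _).mem_nhds hx)).hasFDerivAt
    have h1 := HasFDerivAt.comp (g := fun z : Eu (m + 1) => ‖z‖⁻¹ • z) x (hasFDerivAt_unit hgx0) hgx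
    exact ((hasFDerivAt_nrm hx0).smul h1).hasFDerivWithinAt
  -- surjectivity
  have hsurj : shell (m + 1) ⊆ G '' shell (m + 1) := by
    intro y hy
    have hy0 := shell_ne hy
    have hyn : ‖y‖ ≠ 0 := norm_ne_zero_iff.mpr hy0
    obtain ⟨s, hs1, hs2, hs⟩ := ray_meets (by omega) g h hgd.continuousOn hhd.continuousOn hgm hhm
      hinv.1 hinv.2 (‖y‖⁻¹ • y) (norm_unitvec hy0) ‖y‖ hy.1 hy.2
    have hsA : s • (‖y‖⁻¹ • y) ∈ shell (m + 1) := by
      simp only [shell, mem_ofPred_eq]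
      rw [norm_smul, norm_unitvec hy0, Real.norm_eq_abs, abs_of_pos (by linarith), mul_one]
      exact ⟨hs1, hs2⟩
    refine ⟨h (s • (‖y‖⁻¹ • y)), hhm hsA, ?_⟩
    have e1 : g (h (s • (‖y‖⁻¹ • y))) = s • (‖y‖⁻¹ • y) := hinv.2 hsA
    simp only [hG, e1, hs]
    rw [norm_smul, norm_unitvec hy0, Real.norm_eq_abs, abs_of_pos (by linarith), mul_one,
      smul_smul s⁻¹, inv_mul_cancel₀ (by linarith : s ≠ 0), one_smul, smul_smul,
      mul_inv_cancel₀ hyn, one_smul]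
  have hdet : ∀ x ∈ shell (m + 1), ENNReal.ofReal |(M x).det| ≤
      (m.factorial : ℝ≥0∞) * 2 ^ m * ‖fderiv ℝ g x - dlim m x‖ₑ ^ m := by
    intro x hx
    have hx0 := shell_ne hx
    have hgx0 := shell_ne (hgm hx)
    have hb : |(M x).det| ≤ (m.factorial : ℝ) * (2 * ‖fderiv ℝ g x - dlim m x‖) ^ m := by
      apply det_bound (M x : Eu (m + 1) →ₗ[ℝ] Eu (m + 1)) (‖x‖⁻¹ • x) (‖g x‖⁻¹ • g x) _
        (norm_unitvec hx0) (norm_unitvec hgx0)
      · intro v
        have hin : ‖x‖⁻¹ • (innerSL ℝ x) v = ⟪‖x‖⁻¹ • x, v⟫_ℝ := by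
          simp [inner_smul_left]
        have hMv : (M x) v = ‖x‖ • nder (g x) (fderiv ℝ g x v) +
            (‖x‖⁻¹ • (innerSL ℝ x) v) • (‖g x‖⁻¹ • g x) := rfl
        change ⟪‖g x‖⁻¹ • g x, (M x) v⟫_ℝ = _
        rw [hMv, hin, nder_apply]
        have hun : ‖(‖g x‖⁻¹ • g x)‖ = 1 := norm_unitvec hgx0
        generalize (‖g x‖⁻¹ • g x) = u at hun ⊢
        have huu : ⟪u, u⟫_ℝ = 1 := by rw [real_inner_self_eq_norm_sq, hun]; norm_num
        rw [inner_add_right, inner_smul_right, inner_smul_right, inner_sub_right,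
          inner_smul_right, inner_smul_right, huu]
        ring
      · intro v hv
        have hin : ‖x‖⁻¹ • (innerSL ℝ x) v = ⟪‖x‖⁻¹ • x, v⟫_ℝ := by
          simp [inner_smul_left]
        have hMv : (M x) v = ‖x‖ • nder (g x) (fderiv ℝ g x v) +
            (‖x‖⁻¹ • (innerSL ℝ x) v) • (‖g x‖⁻¹ • g x) := rfl
        change ‖(M x) v‖ ≤ _
        rw [hMv, hin, hv, zero_smul, add_zero, norm_smul, norm_norm]
        have hdl : dlim m x v = 0 := by
          have : dlim m x v = (‖x‖⁻¹ • (innerSL ℝ x) v) • e0 m := rfl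
          rw [this, hin, hv, zero_smul]
        have e1 : fderiv ℝ g x v = (fderiv ℝ g x - dlim m x) v := by
          rw [sub_apply, hdl, sub_zero]
        calc ‖x‖ * ‖nder (g x) (fderiv ℝ g x v)‖ ≤ 2 * ‖fderiv ℝ g x v‖ := by
              gcongr
              · exact hx.2.le
              · exact norm_nder_apply_le (hgm hx).1.le _
          _ = 2 * ‖(fderiv ℝ g x - dlim m x) v‖ := by rw [e1]
          _ ≤ 2 * (‖fderiv ℝ g x - dlim m x‖ * ‖v‖) := by
              gcongr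
              exact ContinuousLinearMap.le_opNorm _ _
          _ = 2 * ‖fderiv ℝ g x - dlim m x‖ * ‖v‖ := by ring
    calc ENNReal.ofReal |(M x).det|
        ≤ ENNReal.ofReal ((m.factorial : ℝ) * (2 * ‖fderiv ℝ g x - dlim m x‖) ^ m) :=
          ENNReal.ofReal_le_ofReal hb
      _ = (m.factorial : ℝ≥0∞) * 2 ^ m * ‖fderiv ℝ g x - dlim m x‖ₑ ^ m := by
          rw [ENNReal.ofReal_mul (by positivity), ENNReal.ofReal_pow (by positivity),
            ENNReal.ofReal_mul (by norm_num), ofReal_norm, mul_pow]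
          simp [mul_assoc]
  calc volume (shell (m + 1)) ≤ volume (G '' shell (m + 1)) := measure_mono hsurj
    _ ≤ ∫⁻ x in shell (m + 1), ENNReal.ofReal |(M x).det| :=
        addHaar_image_le_lintegral_abs_det_fderiv _ hmsr hder
    _ ≤ ∫⁻ x in shell (m + 1), (m.factorial : ℝ≥0∞) * 2 ^ m * ‖fderiv ℝ g x - dlim m x‖ₑ ^ m :=
        setLIntegral_mono' hmsr hdet
    _ = ((m.factorial : ℝ≥0∞) * 2 ^ m) *
      ∫⁻ x in shell (m + 1), ‖fderiv ℝ g x - dlim m x‖ₑ ^ m := by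
        rw [lintegral_const_mul']
        exact ENNReal.mul_ne_top (ENNReal.natCast_ne_top _) (by simp)

lemma vol_shell_pos (m : ℕ) : 0 < volume (shell (m + 1)) := by
  refine (shell_isOpen (m + 1)).measure_pos (volume : Measure (Eu (m + 1)))
    ⟨(3 / 2 : ℝ) • e0 m, ?_⟩
  simp only [shell, mem_ofPred_eq, norm_smul, norm_e0, mul_one, Real.norm_eq_abs]
  rw [abs_of_pos (by norm_num)]
  norm_num

lemma strong_part {m : ℕ} (hm : 1 ≤ m) :
    flim m ∉ strongClosure 1 (m : ℝ≥0∞) (shell (m + 1)) (shell (m + 1)) := by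
  rintro ⟨-, Df, F, DF, hf, hF, hlim⟩
  have hm0 : m ≠ 0 := by omega
  have hp : 1 ≤ (m : ℝ≥0∞) := by exact_mod_cast hm
  have hcd : ContDiffOn ℝ 1 (flim m) (shell (m + 1)) := fun x hx =>
    (contDiffAt_flim (shell_ne hx)).contDiffWithinAt
  have hmsr := (shell_isOpen (m + 1)).measurableSet
  have haeA : ∀ᵐ x ∂((volume : Measure (Eu (m + 1))).restrict (shell (m + 1))), x ∈ shell (m + 1) :=
    ae_restrict_mem hmsr
  have h1 : ∀ᵐ x ∂((volume : Measure (Eu (m + 1))).restrict (shell (m + 1))), Df x = dlim m x := by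
    filter_upwards [ae_eq_fderiv (shell_isOpen _) hcd hp hf, haeA] with x hx hxA
    rw [hx, fderiv_flim (shell_ne hxA)]
  have h2 : ∀ k, ∀ᵐ x ∂((volume : Measure (Eu (m + 1))).restrict (shell (m + 1))),
      DF k x = fderiv ℝ (F k) x := fun k =>
    ae_eq_fderiv (shell_isOpen _) (hF k).1.2.1 hp (hF k).2
  set c : ℝ≥0∞ := (m.factorial : ℝ≥0∞) * 2 ^ m with hc
  have hct : c ≠ ⊤ := ENNReal.mul_ne_top (ENNReal.natCast_ne_top _) (by simp)
  have h3 : ∀ k, volume (shell (m + 1)) ≤ c *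
      (eLpNorm (fun x => F k x - flim m x) (m : ℝ≥0∞) (volume.restrict (shell (m + 1))) +
      eLpNorm (fun x => DF k x - Df x) (m : ℝ≥0∞) (volume.restrict (shell (m + 1)))) ^ m := by
    intro k
    refine (far hm (F k) (hF k).1).trans ?_
    gcongr
    calc ∫⁻ x in shell (m + 1), ‖fderiv ℝ (F k) x - dlim m x‖ₑ ^ m
        = ∫⁻ x in shell (m + 1), ‖DF k x - Df x‖ₑ ^ m := by
          apply lintegral_congr_ae
          filter_upwards [h1, h2 k] with x hx1 hx2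
          rw [hx1, hx2]
      _ = eLpNorm (fun x => DF k x - Df x) (m : ℝ≥0∞) (volume.restrict (shell (m + 1))) ^ m :=
          (eLpNorm_pow hm0 _).symm
      _ ≤ _ := by
          gcongr
          exact le_add_self
  have h4 : Tendsto (fun k => c *
      (eLpNorm (fun x => F k x - flim m x) (m : ℝ≥0∞) (volume.restrict (shell (m + 1))) +
      eLpNorm (fun x => DF k x - Df x) (m : ℝ≥0∞) (volume.restrict (shell (m + 1)))) ^ m) atTop
      (𝓝 (c * 0 ^ m)) := by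
    apply ENNReal.Tendsto.const_mul _ (Or.inr hct)
    exact ((ENNReal.continuous_pow m).tendsto 0).comp hlim
  rw [zero_pow hm0, mul_zero] at h4
  have h5 := ge_of_tendsto' h4 h3
  exact absurd h5 (not_le.mpr (vol_shell_pos m))

end final

/-- **Theorem.** For every `n ≥ 3` and `p = n - 1`, and for the bounded smooth domain
`A = {1 < |x| < 2} ⊆ ℝⁿ`, there is a map `f` with values in `A` that is a weak `W^{1,p}` limit of
`C^∞` diffeomorphisms of `A` onto `A`, but is not a strong `W^{1,p}` limit of diffeomorphisms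
of `A` onto `A`, not even of class `C¹`. -/
theorem result (n : ℕ) (hn : 3 ≤ n) :
    IsOpen (shell n) ∧ IsConnected (shell n) ∧ Bornology.IsBounded (shell n) ∧
    ∃ f : Eu n → Eu n, (∀ x ∈ shell n, f x ∈ shell n) ∧
      f ∈ weakClosure ((⊤ : ℕ∞) : WithTop ℕ∞) ((n - 1 : ℕ) : ℝ≥0∞) (shell n) (shell n) ∧
      f ∉ strongClosure 1 ((n - 1 : ℕ) : ℝ≥0∞) (shell n) (shell n) := by
  obtain ⟨m, rfl⟩ : ∃ m, n = m + 1 := ⟨n - 1, by omega⟩
  refine ⟨shell_isOpen _, ⟨?_, ?_⟩, shell_bdd _, flim m, ?_, ?_, ?_⟩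
  · exact nonempty_of_measure_ne_zero (vol_shell_pos m).ne'
  · exact preconn_shell (by omega) 1 2 (by norm_num)
  · intro x hx
    simp only [shell, mem_ofPred_eq, flim, norm_smul, norm_e0, norm_norm, mul_one]
    exact hx
  · exact weak_part (by omega)
  · exact strong_part (by omega)

end

end Pool.Agent.Results.MP_fc472d_an.ShellWeakNotStrong
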